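import Pool.Agent.Helper29.MS.Rem
import Pool.Agent.Helper38.MS.EfG

/-!
MS2a, MS2b: pumping and removing a block, with the group of the block
-/

set_option autoImplicit false

namespace Pool.Agent.Helper38.MS

open FirstOrder Pool.Agent.Helper20.Spectra Pool.Agent.Helper31.QD Pool.Agent.Helper38.MC
  Pool.Agent.Helper58.QD Pool.Agent.Helper40.MC Pool.Agent.Helper6.MC Pool.Agent.Helper6.EA
open Pool.Agent.Helper29.MW (MFm MSat)
open Pool.Agent.Helper14.SS (SFm)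
open Pool.Agent.Helper40.MCM (SatM countM specM)

variable {S : Type} {ar : S → ℕ}

theorem stmtEfG : StmtEfG := fun _ _ _ har φ => efG har φ

/-- both, with common constants -/
theorem pump_remove {r : ℕ} (har : ∀ s, ar s ≤ r) (φ : SFm (RelLang S ar) 0 0) :
    ∃ c a e : ℕ, 1 ≤ a ∧
    (∀ (n D t O : ℕ) (R : Interp S ar (Fin n)), 1 ≤ t → SatM φ R → FamG R c D t O →
      a * O ^ e ≤ D → ∀ j : ℕ, ∃ R' : Interp S ar (Fin (n + t * j)), SatM φ R') ∧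
    ∀ (n D t O : ℕ) (R : Interp S ar (Fin n)), 1 ≤ t → SatM φ R → FamG R c (D + 1) t O →
      a * O ^ e ≤ D → ∃ n', n' + t = n ∧ ∃ R' : Interp S ar (Fin n'), SatM φ R' ∧
      ∀ c' D' t' O', D' * t' + r < D → FamG R' c' D' t' O' → FamG R c' D' t' O' :=
  pump_remove29 stmtEfG har φ

/-- MS2a -/
theorem pumpG {r : ℕ} (har : ∀ s, ar s ≤ r) (φ : SFm (RelLang S ar) 0 0) : ∃ c a e : ℕ, 1 ≤ a ∧ ∀ (n D t O : ℕ)
    (R : Interp S ar (Fin n)), 1 ≤ t → SatM φ R → FamG R c D t O → a * O ^ e ≤ D → ∀ j : ℕ,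
    ∃ R' : Interp S ar (Fin (n + t * j)), SatM φ R' :=
  pumpG_of stmtEfG har φ

/-- MS2b -/
theorem removeG {r : ℕ} (har : ∀ s, ar s ≤ r) (φ : SFm (RelLang S ar) 0 0) : ∃ c a e : ℕ, 1 ≤ a ∧ ∀ (n D t O : ℕ)
    (R : Interp S ar (Fin n)), 1 ≤ t → SatM φ R → FamG R c (D + 1) t O → a * O ^ e ≤ D →
    ∃ n', n' + t = n ∧ ∃ R' : Interp S ar (Fin n'), SatM φ R' ∧
      ∀ c' D' t' O', D' * t' + r < D → FamG R' c' D' t' O' → FamG R c' D' t' O' :=
  removeG_of stmtEfG har φ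

end Pool.Agent.Helper38.MS
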