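import Pool.Agent.Helper6.MS.Final

/-!
# The border for monadic second-order logic, in terms of automorphisms

If all models of a sentence with `n` elements have at least `K ^ n` automorphisms, for all large `n`
and a `K` which depends on the sentence, then its spectrum is ultimately periodic.
-/

set_option autoImplicit false

namespace Pool.Agent.Helper38.MS

open FirstOrder Pool.Agent.Helper20.Spectra Pool.Agent.Helper31.QD Pool.Agent.Helper38.MC
  Pool.Agent.Helper58.QD Pool.Agent.Helper40.MC Pool.Agent.Helper6.MC Pool.Agent.Helper6.EA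
open Pool.Agent.Helper14.SS (SFm)
open Pool.Agent.Helper40.MCM (SatM countM specM factorial_leM)

/-- the border with one constant `K` (from the sentence), in terms of automorphisms -/
theorem borderAut (S : Type) [Finite S] (ar : S → ℕ) (φ : SFm (RelLang S ar) 0 0) :
    ∃ K : ℕ, (∀ᶠ n : ℕ in Filter.atTop, ∀ R : Interp S ar (Fin n), SatM φ R →
      K ^ n ≤ Nat.card (AuG R)) → ∃ k, FinAP k (specM φ) := by
  have := Fintype.ofFinite S
  obtain ⟨r, har⟩ : ∃ r, ∀ s, ar s ≤ r := ⟨Finset.univ.sup ar, fun s => Finset.le_sup (f := ar) (Finset.mem_univ s)⟩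
  have hlt : ∀ (c t : ℕ), 1 ≤ c → ∀ (Γ : Subgroup (Equiv.Perm (Fin t))), t + 1 ≤ oc c Γ :=
    fun _ _ hc Γ => lt_oc hc Γ
  have hmono : ∀ (S : Type) (ar : S → ℕ) (n c c' D D' t O : ℕ) (R : Interp S ar (Fin n)), FamG R c D t O →
      c' ≤ c → D' ≤ D → FamG R c' D' t O := fun _ _ _ _ _ _ _ _ _ _ h hc hD => h.mono hc hD le_rfl
  obtain ⟨c1, a1, e1, ha1, hp⟩ := pumpG har φ
  obtain ⟨c2, a2, e2, ha2, hr⟩ := removeG har φ
  obtain ⟨c, hc⟩ : ∃ c, c = max 1 (max c1 c2) := ⟨_, rfl⟩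
  obtain ⟨a, ha⟩ : ∃ a, a = max a1 a2 := ⟨_, rfl⟩
  obtain ⟨e, he⟩ : ∃ e, e = max e1 e2 := ⟨_, rfl⟩
  have hc1 : 1 ≤ c := by omega
  have haa : 1 ≤ a := by omega
  obtain ⟨K, hK'⟩ := keyS r c (2 * a) (e + 1) (by omega) (by omega)
  refine ⟨K + 1, fun hcount => ?_⟩
  obtain ⟨n₁, hn₁⟩ := Filter.eventually_atTop.1 hcount
  have hle : ∀ {O x y x' y' : ℕ}, 1 ≤ O → x ≤ x' → y ≤ y' → x * O ^ y ≤ x' * O ^ y' := by
    intro O x y x' y' hO hx hy
    exact Nat.mul_le_mul hx (Nat.pow_le_pow_right hO hy)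
  have hOpos : ∀ {n D t O : ℕ} {R : Interp S ar (Fin n)}, FamG R c D t O → 1 ≤ O := by
    intro n D t O R hF
    obtain ⟨Γ, hΓ⟩ := FamG_O20 hF
    have := hlt c t hc1 Γ
    omega
  have hfam := bounded_famG (r := r) φ (c := c) (a := a) (e := e) (n₀ := max 1 n₁) (W := max 1 n₁ + r + 1)
    (fun t Γ => hlt c t hc1 Γ) (fun n D D' t O R h hD => hmono S ar n c c D D' t O R h le_rfl hD) haa (by omega) (by omega)
    (fun n D t O R ht hR hF hD => hr n D t O R ht hR (hmono S ar n c c2 _ _ t O R hF (by omega) le_rfl)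
      ((hle (hOpos hF) (by omega) (by omega)).trans hD))
    (fun n hn R hR => by
    by_contra hcon
    push Not at hcon
    have h0 := hK' S ar har n R (fun t O ht => hcon t O ht)
    have h5 : (K + 1) ^ n ≤ Nat.card (AuG R) := hn₁ n ((le_max_right _ _).trans hn) R hR
    have h6 : K ^ n < (K + 1) ^ n := by
      have : 1 ≤ n := (le_max_left _ _).trans hn
      exact Nat.pow_lt_pow_left (Nat.lt_succ_self K) (by omega)
    omega)
  refine ⟨max 1 n₁ + r + 1, (Pool.Agent.Helper12.MC.stmtAP _ _).1 ⟨max 1 n₁, ?_⟩⟩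
  rintro n ⟨-, R, hR⟩ hn
  obtain ⟨t, O, ht1, hW, hF⟩ := hfam n hn R hR
  have hO := hOpos hF
  have h7 : 1 ≤ a * O ^ e := Nat.mul_pos haa (pow_pos (by omega) _)
  refine ⟨t, ht1, ?_, fun j => ⟨?_, ?_⟩⟩
  · have : 1 * t ≤ a * O ^ e * t := Nat.mul_le_mul_right t h7
    omega
  · have h6 : 1 ≤ n := (le_max_left _ _).trans hn
    omega
  · exact hp n _ t O R ht1 hR (hmono S ar n c c1 _ _ t O R hF (by omega) le_rfl) (hle hO (by omega) (by omega)) j

end Pool.Agent.Helper38.MS
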