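import Pool.Agent.Helper38.MS.Defs
import Pool.Agent.Helper20.AJ.F
import Pool.Agent.Helper38.MC.Lift3

/-!
MS2a, MS2b: pumping and removing a block, with the group of the block, over MS1
-/

set_option autoImplicit false

namespace Pool.Agent.Helper38.MS

open FirstOrder Pool.Agent.Helper20.Spectra Pool.Agent.Helper31.QD Pool.Agent.Helper38.MC
  Pool.Agent.Helper58.QD Pool.Agent.Helper40.MC Pool.Agent.Helper6.MC Pool.Agent.Helper6.EA
open Pool.Agent.Helper29.MW (MFm MSat MSat.iso)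
open Pool.Agent.Helper14.SS (SFm)
open Pool.Agent.Helper40.MCM (SatM countM specM)

/-- MS1 -/
def StmtEfG : Prop := ∀ (S : Type) (ar : S → ℕ) (r : ℕ), (∀ s, ar s ≤ r) → ∀ φ : MFm S ar 0 0,
  ∃ c a e : ℕ, 1 ≤ a ∧ ∀ (N ι κ T : Type) [Finite ι] [Finite κ] [Finite T]
    [Nonempty T] (Γ : Subgroup (Equiv.Perm T)) (R : Interp S ar (N ⊕ ι × T)), (∀ π : Equiv.Perm ι, Au R (bp π)) →
    (∀ γ ∈ Γ, ∀ (i : ι) (σ : Equiv.Perm (N ⊕ ι × T)), (∀ x, σ (Sum.inr (i, x)) = Sum.inr (i, γ x)) →
      (∀ z, (∀ x, Sum.inr (i, x) ≠ z) → σ z = z) → Au R σ) →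
    a * oc c Γ ^ e ≤ Nat.card ι → a * oc c Γ ^ e ≤ Nat.card κ → (MSat R φ ↔ MSat (ext R κ) φ)

/-- an automorphism of the structure without one block which moves few points -/
theorem lift_one29 {S : Type} {ar : S → ℕ} {N T W : Type} [Finite N] [Finite T] [Fintype W]
    {q r : ℕ} (har : ∀ s, ar s ≤ r) {R : Interp S ar (N ⊕ Fin (q + 1) × T)}
    (hR : ∀ π : Equiv.Perm (Fin (q + 1)), Au R (bp π)) (u : W → N ⊕ Fin q × T)
    (hq : Fintype.card W + r < q) (σ : Equiv.Perm (N ⊕ Fin (q + 1) × T))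
    (h1 : ∀ x, ∃ y, σ (mp Fin.castSucc (u x)) = mp Fin.castSucc (u y))
    (h2 : ∀ z, (∀ x, mp Fin.castSucc (u x) ≠ z) → σ z = z)
    (hu2 : ∀ σ₁ : Equiv.Perm (N ⊕ Fin q × T),
      (∀ x, mp Fin.castSucc (σ₁ x) = σ (mp Fin.castSucc x)) →
      Au (fun s (w : Fin (ar s) → N ⊕ Fin q × T) => R s (mp Fin.castSucc ∘ w)) σ₁) : Au R σ := by
  classical
  have := Fintype.ofFinite N
  have := Fintype.ofFinite T
  have hj : Function.Injective (mp Fin.castSucc : N ⊕ Fin q × T → N ⊕ Fin (q + 1) × T) :=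
    mp_inj _ (Fin.castSucc_injective q)
  intro s v
  -- an index which is not touched
  obtain ⟨a, ha1, ha2⟩ : ∃ a : Fin q, (∀ p y, u p ≠ Sum.inr (a, y)) ∧
      ∀ i y, v i ≠ Sum.inr (Fin.castSucc a, y) := by
    by_contra hcon
    push Not at hcon
    -- the touched indices
    have hsub : (Finset.univ : Finset (Fin q)) ⊆
        (Finset.univ.image fun p : W => Sum.elim (fun _ => none) (fun z => some z.1) (u p)).biUnion
          (fun o => o.toFinset) ∪
        (Finset.univ.image fun i : Fin (ar s) => Sum.elim (fun _ => none) (fun z => some z.1) (v i)).biUnion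
          (fun o => Finset.univ.filter fun a : Fin q => o = some (Fin.castSucc a)) := by
      intro a _
      rw [Finset.mem_union]
      by_cases hc : ∀ p y, u p ≠ Sum.inr (a, y)
      · right
        obtain ⟨i, y, hi⟩ := hcon a hc
        rw [Finset.mem_biUnion]
        refine ⟨some (Fin.castSucc a), Finset.mem_image.2 ⟨i, Finset.mem_univ _, ?_⟩, ?_⟩
        · rw [hi]; rfl
        · rw [Finset.mem_filter]
          exact ⟨Finset.mem_univ _, rfl⟩
      · left
        push Not at hc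
        obtain ⟨p, y, hp⟩ := hc
        rw [Finset.mem_biUnion]
        refine ⟨some a, Finset.mem_image.2 ⟨p, Finset.mem_univ _, ?_⟩, ?_⟩
        · rw [hp]; rfl
        · simp
    have hc := (Finset.card_le_card hsub).trans (Finset.card_union_le _ _)
    rw [Finset.card_univ, Fintype.card_fin] at hc
    have c1 : ((Finset.univ.image fun p : W =>
        Sum.elim (fun _ => none) (fun z => some z.1) (u p)).biUnion (fun o => o.toFinset)).card ≤
        Fintype.card W := by
      refine Finset.card_biUnion_le.trans ?_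
      calc _ ≤ ∑ _o ∈ (Finset.univ.image fun p : W =>
            Sum.elim (fun _ => none) (fun z => some z.1) (u p) : Finset (Option (Fin q))), 1 := by
            refine Finset.sum_le_sum fun o _ => ?_
            rcases o with _ | o <;> simp
        _ ≤ Fintype.card W := by
            rw [Finset.sum_const, smul_eq_mul, mul_one]
            refine Finset.card_image_le.trans ?_
            simp
    have c2 : ((Finset.univ.image fun i : Fin (ar s) => Sum.elim (fun _ => none) (fun z => some z.1) (v i)).biUnion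
          (fun o => Finset.univ.filter fun a : Fin q => o = some (Fin.castSucc a))).card ≤ r := by
      refine Finset.card_biUnion_le.trans ?_
      calc _ ≤ ∑ _o ∈ (Finset.univ.image fun i : Fin (ar s) =>
            Sum.elim (fun _ => none) (fun z => some z.1) (v i) : Finset (Option (Fin (q + 1)))), 1 := by
            refine Finset.sum_le_sum fun o _ => ?_
            rw [Finset.card_le_one]
            intro a ha b hb
            rw [Finset.mem_filter] at ha hb
            have h3 := ha.2.symm.trans hb.2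
            exact Fin.castSucc_injective q (Option.some_injective _ h3)
        _ ≤ r := by
            rw [Finset.sum_const, smul_eq_mul, mul_one]
            refine Finset.card_image_le.trans ?_
            simpa using har s
    omega
  -- the restriction of `σ`
  have hex : ∀ x : N ⊕ Fin q × T, ∃ y : N ⊕ Fin q × T, mp Fin.castSucc y = σ (mp Fin.castSucc x) := by
    intro x
    by_cases hx : ∃ p, u p = x
    · obtain ⟨p, rfl⟩ := hx
      obtain ⟨y, hy⟩ := h1 p
      exact ⟨u y, hy.symm⟩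
    · push Not at hx
      exact ⟨x, (h2 _ (fun p hp => hx p (hj hp))).symm⟩
  choose f hf using hex
  have hfi : Function.Injective f := by
    intro x y hxy
    have h3 := hf x
    rw [hxy, hf y] at h3
    exact (hj (σ.injective h3)).symm
  let σ₁ : Equiv.Perm (N ⊕ Fin q × T) := Equiv.ofBijective f (Finite.injective_iff_bijective.1 hfi)
  have hσ₁ : ∀ x, mp Fin.castSucc (σ₁ x) = σ (mp Fin.castSucc x) := hf
  have hA := hu2 σ₁ hσ₁
  -- moving `v` away from the last block
  set τ : Equiv.Perm (N ⊕ Fin (q + 1) × T) := bp (Equiv.swap (Fin.castSucc a) (Fin.last q)) with hτ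
  have hτ1 : ∀ (i : Fin (q + 1)) (y : T), i ≠ Fin.castSucc a → i ≠ Fin.last q →
      τ (Sum.inr (i, y)) = Sum.inr (i, y) := by
    intro i y h3 h4
    rw [hτ, bp_eq]
    show Sum.inr (Equiv.swap (Fin.castSucc a) (Fin.last q) i, y) = _
    rw [Equiv.swap_apply_of_ne_of_ne h3 h4]
  have hτ0 : ∀ x : N, τ (Sum.inl x) = Sum.inl x := fun x => rfl
  have hτ2 : ∀ y : T, τ (Sum.inr (Fin.last q, y)) = Sum.inr (Fin.castSucc a, y) := by
    intro y
    rw [hτ, bp_eq]
    show Sum.inr (Equiv.swap (Fin.castSucc a) (Fin.last q) (Fin.last q), y) = _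
    rw [Equiv.swap_apply_right]
  have hτ3 : ∀ y : T, τ (Sum.inr (Fin.castSucc a, y)) = Sum.inr (Fin.last q, y) := by
    intro y
    rw [hτ, bp_eq]
    show Sum.inr (Equiv.swap (Fin.castSucc a) (Fin.last q) (Fin.castSucc a), y) = _
    rw [Equiv.swap_apply_left]
  have hv1 : ∀ i, ∃ y : N ⊕ Fin q × T, mp Fin.castSucc y = τ (v i) := by
    intro i
    rcases e : v i with x | ⟨b, y⟩
    · exact ⟨Sum.inl x, rfl⟩
    · by_cases hb : b = Fin.last q
      · subst hb
        exact ⟨Sum.inr (a, y), (hτ2 y).symm⟩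
      · obtain ⟨b', rfl⟩ := Fin.exists_castSucc_eq.2 hb
        refine ⟨Sum.inr (b', y), ?_⟩
        rw [hτ1 _ _ (fun h3 => ha2 i y (by rw [e, h3])) hb]
        rfl
  choose v1 hv1' using hv1
  have e1 : mp Fin.castSucc ∘ v1 = τ ∘ v := funext hv1'
  -- `σ` does not touch the blocks `a` and `last`
  have hσa : ∀ y : T, σ (Sum.inr (Fin.castSucc a, y)) = Sum.inr (Fin.castSucc a, y) := by
    intro y
    apply h2
    intro p hp
    exact ha1 p y (hj hp)
  have hσl : ∀ y : T, σ (Sum.inr (Fin.last q, y)) = Sum.inr (Fin.last q, y) := by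
    intro y
    apply h2
    intro p hp
    rcases e : u p with x | ⟨b, z⟩
    · rw [e] at hp
      exact absurd hp (by simp [mp])
    · rw [e] at hp
      have h3 : Fin.castSucc b = Fin.last q := congrArg Prod.fst (Sum.inr_injective hp)
      exact absurd h3 (Fin.castSucc_lt_last b).ne
  have e2 : τ ∘ (σ ∘ (τ ∘ v)) = σ ∘ v := by
    funext i
    show τ (σ (τ (v i))) = σ (v i)
    by_cases hl : ∃ y, v i = Sum.inr (Fin.last q, y)
    · obtain ⟨y, hy⟩ := hl
      rw [hy, hτ2, hσa, hτ3, hσl]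
    · push Not at hl
      have hfix : ∀ x : N ⊕ Fin (q + 1) × T, (∀ y, x ≠ Sum.inr (Fin.last q, y)) →
          (∀ y, x ≠ Sum.inr (Fin.castSucc a, y)) → τ x = x := by
        intro x hx1 hx2
        rcases x with x | ⟨b, y⟩
        · exact hτ0 x
        · exact hτ1 b y (fun h3 => hx2 y (by rw [h3])) (fun h3 => hx1 y (by rw [h3]))
      rw [hfix (v i) hl (ha2 i)]
      apply hfix
      · intro y hy
        have h3 : v i = Sum.inr (Fin.last q, y) := σ.injective (hy.trans (hσl y).symm)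
        exact hl y h3
      · intro y hy
        have h3 : v i = Sum.inr (Fin.castSucc a, y) := σ.injective (hy.trans (hσa y).symm)
        exact ha2 i y h3
  have k1 : R s (τ ∘ v) ↔ R s v := hR _ s v
  have k2 := hA s v1
  have k3 : R s (mp Fin.castSucc ∘ (σ₁ ∘ v1)) ↔ R s (mp Fin.castSucc ∘ v1) := k2
  have e3 : mp Fin.castSucc ∘ (σ₁ ∘ v1) = σ ∘ (τ ∘ v) := by
    funext i
    show mp Fin.castSucc (σ₁ (v1 i)) = _
    rw [hσ₁, hv1']
    rfl
  rw [e3, e1] at k3
  have k4 : R s (τ ∘ (σ ∘ (τ ∘ v))) ↔ R s (σ ∘ (τ ∘ v)) := hR _ s (σ ∘ (τ ∘ v))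
  rw [e2] at k4
  exact k4.trans (k3.trans k1)

/-- a bijection carries families to families -/
theorem FamG.equiv29 {S : Type} {ar : S → ℕ} {V W : Type} {R : Interp S ar V} {c D t O : ℕ}
    (h : FamG R c D t O) (e : W ≃ V) : FamG (fun s w => R s (e ∘ w)) c D t O := by
  obtain ⟨u, Γ, h1, h2, h3, h4⟩ := h
  have key : ∀ σ : Equiv.Perm W, Au R (e.symm.trans (σ.trans e)) →
      Au (fun s w => R s (e ∘ w)) σ := by
    intro σ h5 s w
    have h6 := h5 s (e ∘ w)
    have e1 : (e.symm.trans (σ.trans e)) ∘ (e ∘ w) = e ∘ (σ ∘ w) := by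
      funext a
      show e (σ (e.symm (e (w a)))) = _
      rw [Equiv.symm_apply_apply]
      rfl
    rw [e1] at h6
    exact h6
  refine ⟨fun p => e.symm (u p), Γ, fun p p' hp => h1 (e.symm.injective hp), ?_, ?_, h4⟩
  · intro π σ h5 h6
    refine key σ (h2 π _ ?_ ?_)
    · intro i x
      show e (σ (e.symm (u (i, x)))) = _
      rw [h5, Equiv.apply_symm_apply]
    · intro z hz
      show e (σ (e.symm z)) = z
      rw [h6 (e.symm z) (fun p hp => hz p (e.symm.injective hp)), Equiv.apply_symm_apply]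
  · intro γ hγ i σ h5 h6
    refine key σ (h3 γ hγ i _ ?_ ?_)
    · intro x
      show e (σ (e.symm (u (i, x)))) = _
      rw [h5, Equiv.apply_symm_apply]
    · intro z hz
      show e (σ (e.symm z)) = z
      rw [h6 (e.symm z) (fun p hp => hz p (e.symm.injective hp)), Equiv.apply_symm_apply]

/-- a small family of the structure without one block is a family of the structure -/
theorem lift_famG29 {S : Type} {ar : S → ℕ} {N T : Type} [Finite N] [Finite T] {q D t r c O : ℕ}
    (har : ∀ s, ar s ≤ r) {R : Interp S ar (N ⊕ Fin (q + 1) × T)}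
    (hR : ∀ π : Equiv.Perm (Fin (q + 1)), Au R (bp π)) (hq : D * t + r < q)
    (h : FamG (fun s (w : Fin (ar s) → N ⊕ Fin q × T) => R s (mp Fin.castSucc ∘ w)) c D t O) :
    FamG R c D t O := by
  classical
  obtain ⟨u, Γ, hu, h2, h3, h4⟩ := h
  have hj : Function.Injective (mp Fin.castSucc : N ⊕ Fin q × T → N ⊕ Fin (q + 1) × T) :=
    mp_inj _ (Fin.castSucc_injective q)
  refine ⟨fun p => mp Fin.castSucc (u p), Γ, fun p p' hp => hu (hj hp), ?_, ?_, h4⟩
  · intro π σ h5 h6
    refine lift_one29 har hR u ?_ σ (fun p => ⟨(π p.1, p.2), h5 p.1 p.2⟩) h6 ?_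
    · rw [Fintype.card_prod, Fintype.card_fin, Fintype.card_fin]
      exact hq
    · intro σ₁ hσ₁
      refine h2 π σ₁ ?_ ?_
      · intro i x
        apply hj
        rw [hσ₁]
        exact h5 i x
      · intro z hz
        apply hj
        rw [hσ₁]
        exact h6 _ (fun p hp => hz p (hj hp))
  · intro γ hγ i σ h5 h6
    refine lift_one29 har hR (fun x => u (i, x)) ?_ σ (fun x => ⟨γ x, h5 x⟩) h6 ?_
    · rw [Fintype.card_fin]
      have h7 : 1 * t ≤ D * t := Nat.mul_le_mul_right _ (Fin.pos i)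
      omega
    · intro σ₁ hσ₁
      refine h3 γ hγ i σ₁ ?_ ?_
      · intro x
        apply hj
        rw [hσ₁]
        exact h5 x
      · intro z hz
        apply hj
        rw [hσ₁]
        exact h6 _ (fun p hp => hz p (hj hp))

section main

open Pool.Agent.Helper53.AJ (cutE cutR cutE_inr cutR_bp Hm)

variable {S : Type} {ar : S → ℕ}

/-- the groups of the blocks on the cut universe -/
lemma cut_group29 {V : Type} {R : Interp S ar V} {D t : ℕ} {u : Fin D × Fin t → V}
    {Γ : Subgroup (Equiv.Perm (Fin t))} (hu : Function.Injective u)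
    (h3 : ∀ γ ∈ Γ, ∀ (i : Fin D) (σ : Equiv.Perm V), (∀ x, σ (u (i, x)) = u (i, γ x)) →
      (∀ z, (∀ x, u (i, x) ≠ z) → σ z = z) → Au R σ) :
    ∀ γ ∈ Γ, ∀ (i : Fin D) (σ : Equiv.Perm ({z : V // ¬ z ∈ Set.range u} ⊕ (Fin D × Fin t))),
      (∀ x, σ (Sum.inr (i, x)) = Sum.inr (i, γ x)) →
      (∀ z, (∀ x, Sum.inr (i, x) ≠ z) → σ z = z) → Au (cutR u hu R) σ := by
  intro γ hγ i σ h5 h6
  have h7 := h3 γ hγ i ((cutE u hu).symm.trans (σ.trans (cutE u hu))) (by
    intro x
    show cutE u hu (σ ((cutE u hu).symm (u (i, x)))) = _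
    rw [← cutE_inr u hu, Equiv.symm_apply_apply, h5, cutE_inr]) (by
    intro z hz
    show cutE u hu (σ ((cutE u hu).symm z)) = z
    rw [h6 _ (fun x hx => hz x (by rw [← cutE_inr u hu, hx, Equiv.apply_symm_apply])),
      Equiv.apply_symm_apply])
  intro s w
  have h8 := h7 s (cutE u hu ∘ w)
  have e1 : ((cutE u hu).symm.trans (σ.trans (cutE u hu))) ∘ (cutE u hu ∘ w) =
      cutE u hu ∘ (σ ∘ w) := by
    funext a
    show cutE u hu (σ ((cutE u hu).symm (cutE u hu (w a)))) = _
    rw [Equiv.symm_apply_apply]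
    rfl
  rw [e1] at h8
  exact h8

/-- MS2a and MS2b, with common constants -/
theorem pump_remove29 (hef : StmtEfG) {r : ℕ} (har : ∀ s, ar s ≤ r)
    (φ : SFm (RelLang S ar) 0 0) : ∃ c a e : ℕ, 1 ≤ a ∧
    (∀ (n D t O : ℕ) (R : Interp S ar (Fin n)), 1 ≤ t → SatM φ R → FamG R c D t O →
      a * O ^ e ≤ D → ∀ j : ℕ, ∃ R' : Interp S ar (Fin (n + t * j)), SatM φ R') ∧
    ∀ (n D t O : ℕ) (R : Interp S ar (Fin n)), 1 ≤ t → SatM φ R → FamG R c (D + 1) t O →
      a * O ^ e ≤ D → ∃ n', n' + t = n ∧ ∃ R' : Interp S ar (Fin n'), SatM φ R' ∧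
      ∀ c' D' t' O', D' * t' + r < D → FamG R' c' D' t' O' → FamG R c' D' t' O' := by
  classical
  obtain ⟨ψ, hψ⟩ := Pool.Agent.Helper6.MC.exists_mfm φ
  obtain ⟨c, a, e, ha, hc⟩ := hef S ar r har ψ
  refine ⟨c, a, e, ha, ?_, ?_⟩
  · intro n D t O R ht hM hF hD j
    obtain ⟨u, Γ, h1, h2, h3, h4⟩ := hF
    have hu : Hm R u := ⟨h1, h2⟩
    have : Nonempty (Fin t) := ⟨⟨0, ht⟩⟩
    have hD' : a * oc c Γ ^ e ≤ D :=
      (Nat.mul_le_mul_left a (Nat.pow_le_pow_left h4 e)).trans hD
    rw [hψ] at hM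
    have hM0 : MSat (cutR u h1 R) ψ := (MSat.iso R (cutE u h1).symm ψ).1 hM
    have h5 := (hc {z : Fin n // ¬ z ∈ Set.range u} (Fin D) (Fin (D + j)) (Fin t) Γ (cutR u h1 R)
      (cutR_bp hu) (cut_group29 h1 h3)
      (by rw [Nat.card_eq_fintype_card, Fintype.card_fin]; exact hD')
      (by rw [Nat.card_eq_fintype_card, Fintype.card_fin]; omega)).1 hM0
    have hcard : Fintype.card ({z : Fin n // ¬ z ∈ Set.range u} ⊕ (Fin (D + j) × Fin t)) =
        n + t * j := by
      have h6 := Fintype.card_congr (cutE u h1)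
      rw [Fintype.card_sum, Fintype.card_prod, Fintype.card_fin, Fintype.card_fin,
        Fintype.card_fin] at h6
      rw [Fintype.card_sum, Fintype.card_prod, Fintype.card_fin, Fintype.card_fin]
      have h7 : (D + j) * t = D * t + t * j := by ring
      omega
    let e2 := Fintype.equivFinOfCardEq hcard
    exact ⟨_, (hψ _ _).2 ((MSat.iso _ e2 ψ).1 h5)⟩
  · intro n D t O R ht hM hF hD
    obtain ⟨u, Γ, h1, h2, h3, h4⟩ := hF
    have hu : Hm R u := ⟨h1, h2⟩
    have : Nonempty (Fin t) := ⟨⟨0, ht⟩⟩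
    have hD' : a * oc c Γ ^ e ≤ D :=
      (Nat.mul_le_mul_left a (Nat.pow_le_pow_left h4 e)).trans hD
    rw [hψ] at hM
    have hM0 : MSat (cutR u h1 R) ψ := (MSat.iso R (cutE u h1).symm ψ).1 hM
    have hinv := cutR_bp hu
    have h5 := (hc {z : Fin n // ¬ z ∈ Set.range u} (Fin (D + 1)) (Fin D) (Fin t) Γ (cutR u h1 R)
      hinv (cut_group29 h1 h3)
      (by rw [Nat.card_eq_fintype_card, Fintype.card_fin]; omega)
      (by rw [Nat.card_eq_fintype_card, Fintype.card_fin]; exact hD')).1 hM0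
    have hE : ext (cutR u h1 R) (Fin D) =
        (fun s (w : Fin (ar s) → {z : Fin n // ¬ z ∈ Set.range u} ⊕ (Fin D × Fin t)) =>
          cutR u h1 R s (mp Fin.castSucc ∘ w)) := by
      funext s w
      apply propext
      constructor
      · rintro ⟨g, hg1, hg2⟩
        exact (inv_choice hinv w hg1 ((Fin.castSucc_injective D).injOn)).1 hg2
      · intro h
        exact ⟨Fin.castSucc, (Fin.castSucc_injective D).injOn, h⟩
    rw [hE] at h5
    have hcard : Fintype.card ({z : Fin n // ¬ z ∈ Set.range u} ⊕ (Fin D × Fin t)) + t = n := by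
      have h6 := Fintype.card_congr (cutE u h1)
      rw [Fintype.card_sum, Fintype.card_prod, Fintype.card_fin, Fintype.card_fin,
        Fintype.card_fin] at h6
      rw [Fintype.card_sum, Fintype.card_prod, Fintype.card_fin, Fintype.card_fin]
      have h7 : (D + 1) * t = D * t + t := by ring
      omega
    obtain ⟨n', hn'⟩ : ∃ n', n' =
        Fintype.card ({z : Fin n // ¬ z ∈ Set.range u} ⊕ (Fin D × Fin t)) := ⟨_, rfl⟩
    let e2 : {z : Fin n // ¬ z ∈ Set.range u} ⊕ (Fin D × Fin t) ≃ Fin n' :=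
      Fintype.equivFinOfCardEq hn'.symm
    refine ⟨n', by omega, fun s w => cutR u h1 R s (mp Fin.castSucc ∘ (e2.symm ∘ w)), ?_, ?_⟩
    · rw [hψ]
      exact (MSat.iso _ e2 ψ).1 h5
    · intro c' D₁ t₁ O₁ hlt hF1
      have h6 := hF1.equiv29 e2
      have e3 : (fun (s : S) (w : Fin (ar s) → {z : Fin n // ¬ z ∈ Set.range u} ⊕ (Fin D × Fin t)) =>
          cutR u h1 R s (mp Fin.castSucc ∘ (e2.symm ∘ (e2 ∘ w)))) =
          fun s w => cutR u h1 R s (mp Fin.castSucc ∘ w) := by
        funext s w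
        have : e2.symm ∘ (e2 ∘ w) = w := by
          funext a
          exact e2.symm_apply_apply (w a)
        rw [this]
      rw [e3] at h6
      have h7 := lift_famG29 (R := cutR u h1 R) har hinv hlt h6
      have h8 := h7.equiv29 (cutE u h1).symm
      have e4 : (fun (s : S) (w : Fin (ar s) → Fin n) => cutR u h1 R s ((cutE u h1).symm ∘ w)) = R := by
        funext s w
        show R s (cutE u h1 ∘ ((cutE u h1).symm ∘ w)) = R s w
        have : cutE u h1 ∘ ((cutE u h1).symm ∘ w) = w := by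
          funext a
          exact (cutE u h1).apply_symm_apply (w a)
        rw [this]
      rw [e4] at h8
      exact h8

/-- MS2a -/
theorem pumpG_of (hef : StmtEfG) {r : ℕ} (har : ∀ s, ar s ≤ r) (φ : SFm (RelLang S ar) 0 0) :
    ∃ c a e : ℕ, 1 ≤ a ∧ ∀ (n D t O : ℕ)
    (R : Interp S ar (Fin n)), 1 ≤ t → SatM φ R → FamG R c D t O → a * O ^ e ≤ D → ∀ j : ℕ,
    ∃ R' : Interp S ar (Fin (n + t * j)), SatM φ R' := by
  obtain ⟨c, a, e, ha, h1, -⟩ := pump_remove29 hef har φ
  exact ⟨c, a, e, ha, h1⟩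

/-- MS2b -/
theorem removeG_of (hef : StmtEfG) {r : ℕ} (har : ∀ s, ar s ≤ r) (φ : SFm (RelLang S ar) 0 0) :
    ∃ c a e : ℕ, 1 ≤ a ∧ ∀ (n D t O : ℕ)
    (R : Interp S ar (Fin n)), 1 ≤ t → SatM φ R → FamG R c (D + 1) t O → a * O ^ e ≤ D →
    ∃ n', n' + t = n ∧ ∃ R' : Interp S ar (Fin n'), SatM φ R' ∧
      ∀ c' D' t' O', D' * t' + r < D → FamG R' c' D' t' O' → FamG R c' D' t' O' := by
  obtain ⟨c, a, e, ha, -, h2⟩ := pump_remove29 hef har φ
  exact ⟨c, a, e, ha, h2⟩

end main

end Pool.Agent.Helper38.MS
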